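import Pool.Agent.W809.JS.Stm

set_option autoImplicit false

/-! Project JN: averages over boxes. -/

open MeasureTheory Filter Topology Set Metric
open Pool.Agent.Results.MP_5c297c_an.NotJessen

namespace Pool.Agent.W591.JS

open Pool.Agent.W809.JS

theorem box : S_BOX := by
  intro n r T hr hrT F hF
  have hcl : MeasurableSet {q : (Fin n → ℝ) × (Fin n → ℝ) | q.2 ∈ closedBall q.1 r} := by
    have : {q : (Fin n → ℝ) × (Fin n → ℝ) | q.2 ∈ closedBall q.1 r} =
        {q | dist q.2 q.1 ≤ r} := by
      ext q
      rfl
    rw [this]
    exact (isClosed_le (continuous_snd.dist continuous_fst) continuous_const).measurableSet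
  have hmeas : Measurable (Function.uncurry fun (h x : Fin n → ℝ) =>
      (closedBall h r).indicator F x) := by
    have : (Function.uncurry fun (h x : Fin n → ℝ) => (closedBall h r).indicator F x) =
        ({q : (Fin n → ℝ) × (Fin n → ℝ) | q.2 ∈ closedBall q.1 r}).indicator
          (fun q => F q.2) := by
      ext q
      rfl
    rw [this]
    exact (hF.comp measurable_snd).indicator hcl
  have key : ∫⁻ h in cube T (0 : Fin n → ℝ), ∫⁻ x in closedBall h r, F x =
      ∫⁻ x, F x * volume (closedBall x r ∩ cube T 0) := by
    have e1 : ∀ h : Fin n → ℝ, ∫⁻ x in closedBall h r, F x =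
        ∫⁻ x, (closedBall h r).indicator F x := by
      intro h
      rw [lintegral_indicator isClosed_closedBall.measurableSet]
    simp only [e1]
    rw [lintegral_lintegral_swap hmeas.aemeasurable]
    refine lintegral_congr fun x => ?_
    have e2 : ∀ h : Fin n → ℝ, (closedBall h r).indicator F x =
        (closedBall x r).indicator (fun _ => F x) h := by
      intro h
      by_cases hx : x ∈ closedBall h r
      · rw [indicator_of_mem hx, indicator_of_mem (mem_closedBall_comm.1 hx)]
      · rw [indicator_of_notMem hx, indicator_of_notMem fun h' => hx (mem_closedBall_comm.1 h')]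
    simp only [e2]
    rw [lintegral_indicator_const isClosed_closedBall.measurableSet,
      Measure.restrict_apply isClosed_closedBall.measurableSet]
  have hvol : ∀ x : Fin n → ℝ, volume (closedBall x r) = ENNReal.ofReal ((2 * r) ^ n) := by
    intro x
    rw [Real.volume_pi_closedBall x hr.le, Fintype.card_fin]
  have hcm : ∀ l : ℝ, MeasurableSet (cube l (0 : Fin n → ℝ)) := fun l =>
    (isOpen_cube l 0).measurableSet
  have hdist : ∀ x y : Fin n → ℝ, y ∈ closedBall x r → ∀ k, |y k - x k| ≤ r := by
    intro x y hy k
    rw [← Real.dist_eq]
    exact (dist_le_pi_dist y x k).trans hy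
  rw [key]
  constructor
  · rw [← lintegral_const_mul _ hF, ← lintegral_indicator (hcm _)]
    refine lintegral_mono fun x => ?_
    by_cases hx : x ∈ cube (T - r) (0 : Fin n → ℝ)
    · rw [indicator_of_mem hx]
      have hsub : closedBall x r ⊆ cube T (0 : Fin n → ℝ) := by
        intro y hy k
        have h1 := hx k
        have h2 := hdist x y hy k
        have h3 : y k - (0 : Fin n → ℝ) k = (y k - x k) + (x k - (0 : Fin n → ℝ) k) := by ring
        rw [h3]
        refine (abs_add_le _ _).trans_lt ?_
        linarith
      rw [inter_eq_self_of_subset_left hsub, hvol, mul_comm]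
    · rw [indicator_of_notMem hx]
      exact zero_le
  · rw [← lintegral_const_mul _ hF, ← lintegral_indicator (hcm _)]
    refine lintegral_mono fun x => ?_
    by_cases hx : x ∈ cube (T + r) (0 : Fin n → ℝ)
    · rw [indicator_of_mem hx, mul_comm]
      refine mul_le_mul' ?_ le_rfl
      rw [← hvol x]
      exact measure_mono inter_subset_left
    · rw [indicator_of_notMem hx]
      have : closedBall x r ∩ cube T (0 : Fin n → ℝ) = ∅ := by
        rw [eq_empty_iff_forall_notMem]
        rintro y ⟨hy, hyT⟩
        apply hx
        intro k
        have h1 := hyT k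
        have h2 := hdist x y hy k
        have h3 : x k - (0 : Fin n → ℝ) k = (y k - (0 : Fin n → ℝ) k) + -(y k - x k) := by ring
        rw [h3]
        refine (abs_add_le _ _).trans_lt ?_
        rw [abs_neg]
        linarith
      rw [this, measure_empty, mul_zero]

end Pool.Agent.W591.JS
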